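import Pool.Agent.Helper99.EXC.GoalsD

set_option autoImplicit false

open Finset
open Pool.Agent.Helper99.ERW Pool.Agent.Helper99.EXC

namespace Pool.Agent.Helper56.EXC

theorem V_nonneg {a : ℝ} {p : Site 2 → ℕ → ℝ} {V : Site 2 → ℝ} {Tl : Site 2 → ℕ → ℝ}
    {Si : Site 2 → ℝ} (hc : Cook a p V Tl Si) (z : Site 2) : 0 ≤ V z := by
  have := hc.tv z 0
  simpa [Vm] using this

theorem Sm_diff_le {a : ℝ} {p : Site 2 → ℕ → ℝ} {V : Site 2 → ℝ} {Tl : Site 2 → ℕ → ℝ}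
    {Si : Site 2 → ℝ} (hc : Cook a p V Tl Si) (z : Site 2) {i j : ℕ} (hij : j ≤ i) :
    |Sm a p z i - Sm a p z j| ≤ V z := by
  refine le_trans ?_ (hc.tv z i)
  unfold Sm Vm
  rw [← Finset.sum_range_add_sum_Ico (fun l => p z l - a) hij, add_sub_cancel_left,
    ← Finset.sum_range_add_sum_Ico (fun l => |p z l - a|) hij]
  have h1 : 0 ≤ ∑ l ∈ range j, |p z l - a| := Finset.sum_nonneg fun _ _ => abs_nonneg _
  have h2 := Finset.abs_sum_le_sum_abs (fun l => p z l - a) (Finset.Ico j i)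
  linarith

theorem Sm_diff {a : ℝ} {p : Site 2 → ℕ → ℝ} {V : Site 2 → ℝ} {Tl : Site 2 → ℕ → ℝ}
    {Si : Site 2 → ℝ} (hc : Cook a p V Tl Si) (z : Site 2) (i j : ℕ) :
    |Sm a p z i - Sm a p z j| ≤ V z := by
  rcases le_total j i with h | h
  · exact Sm_diff_le hc z h
  · rw [abs_sub_comm]; exact Sm_diff_le hc z h

theorem Bx_mono {b k l : ℕ} (h : k ≤ l) : Bx b k ⊆ Bx b l := by
  intro x hx
  unfold Bx at *
  rw [mem_box] at *
  intro i
  refine (hx i).trans ?_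
  have : b * 2 ^ k ≤ b * 2 ^ l := Nat.mul_le_mul_left _ (Nat.pow_le_pow_right (by norm_num) h)
  exact_mod_cast this

theorem La_sum (a : ℝ) (B : Finset (Site 2)) (c : Site 2 → ℝ) (φ Φ : Site 2 → ℝ) (x : Site 2) :
    La a (fun x => ∑ z ∈ B, c z * (φ (x - z) - Φ x)) x =
      ∑ z ∈ B, c z * (La a φ (x - z) - La a Φ x) := by
  unfold La secondDiff
  rw [← sub_eq_zero]
  simp only [Finset.mul_sum, Finset.sum_div, ← Finset.sum_add_distrib, ← Finset.sum_sub_distrib]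
  apply Finset.sum_eq_zero
  intro z _
  have e : ∀ v : Site 2, x + v - z = x - z + v := fun v => by abel
  simp only [e]
  ring

theorem Df_sum (B : Finset (Site 2)) (c : Site 2 → ℝ) (φ Φ : Site 2 → ℝ) (x : Site 2) :
    Df (fun x => ∑ z ∈ B, c z * (φ (x - z) - Φ x)) x =
      ∑ z ∈ B, c z * (Df φ (x - z) - Df Φ x) := by
  unfold Df secondDiff
  rw [← sub_eq_zero]
  simp only [Finset.mul_sum, Finset.sum_div, ← Finset.sum_add_distrib, ← Finset.sum_sub_distrib]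
  apply Finset.sum_eq_zero
  intro z _
  have e : ∀ v : Site 2, x + v - z = x - z + v := fun v => by abel
  simp only [e]
  ring

/-- the function of the state -/
noncomputable def FF (a : ℝ) (p : Site 2 → ℕ → ℝ) (φ : Site 2 → ℝ) (Φ : ℕ → Site 2 → ℝ) (b k : ℕ)
    (L0 : Site 2 → ℕ) (x : Site 2) (L : Site 2 → ℕ) : ℝ :=
  ∑ z ∈ Bx b k, hk Φ k z * (Sm a p z (L z) - Sm a p z (L0 z)) * (φ (x - z) - Φ k x)

theorem step_FF {a : ℝ} {p : Site 2 → ℕ → ℝ} {φ : Site 2 → ℝ} {Φ : ℕ → Site 2 → ℝ} {κ C : ℝ}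
    {b k1 : ℕ} (hs : Scl a φ Φ κ C b k1) {k : ℕ} (hk1 : k1 ≤ k) (L0 : Site 2 → ℕ) (s : St) :
    stp p (fun s => FF a p φ Φ b k L0 s.1 s.2) s = FF a p φ Φ b k L0 s.1 s.2 +
      (hk Φ k s.1 * dS a p s * (φ 0 - Φ k s.1) + hk Φ k s.1 * DS a p L0 s s.1 -
        La a (Φ k) s.1 * (cL a p Φ b k (inc s) - cL a p Φ b k L0) +
        dS a p s * ∑ z ∈ Bx b k, hk Φ k z * DS a p L0 s z *
          (Df φ (s.1 - z) - Df (Φ k) s.1)) := by
  rw [stp_pos' p a (FF a p φ Φ b k L0) s]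
  have h1 : FF a p φ Φ b k L0 s.1 (inc s) = FF a p φ Φ b k L0 s.1 s.2 +
      hk Φ k s.1 * dS a p s * (φ 0 - Φ k s.1) := by
    rw [← sub_eq_iff_eq_add']
    unfold FF
    rw [← Finset.sum_sub_distrib]
    have h2 : ∀ z ∈ Bx b k, z ≠ s.1 →
        hk Φ k z * (Sm a p z (inc s z) - Sm a p z (L0 z)) * (φ (s.1 - z) - Φ k s.1) -
        hk Φ k z * (Sm a p z (s.2 z) - Sm a p z (L0 z)) * (φ (s.1 - z) - Φ k s.1) = 0 := by
      intro z _ hz
      rw [inc_of_ne s hz]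
      ring
    have h3 : hk Φ k s.1 * (Sm a p s.1 (inc s s.1) - Sm a p s.1 (L0 s.1)) *
          (φ (s.1 - s.1) - Φ k s.1) -
        hk Φ k s.1 * (Sm a p s.1 (s.2 s.1) - Sm a p s.1 (L0 s.1)) * (φ (s.1 - s.1) - Φ k s.1) =
        hk Φ k s.1 * dS a p s * (φ 0 - Φ k s.1) := by
      rw [inc_self, Sm_succ, sub_self]
      unfold dS
      ring
    by_cases hx : s.1 ∈ Bx b k
    · rw [Finset.sum_eq_single s.1 h2 (fun h => absurd hx h), h3]
    · rw [Finset.sum_eq_zero (fun z hz => h2 z hz (fun h => hx (h ▸ hz))), hs.hS k hk1 _ hx]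
      ring
  have h4 : La a (fun x => FF a p φ Φ b k L0 x (inc s)) s.1 =
      hk Φ k s.1 * DS a p L0 s s.1 -
        La a (Φ k) s.1 * (cL a p Φ b k (inc s) - cL a p Φ b k L0) := by
    have e : (fun x => FF a p φ Φ b k L0 x (inc s)) = fun x => ∑ z ∈ Bx b k,
        (hk Φ k z * (Sm a p z (inc s z) - Sm a p z (L0 z))) * (φ (x - z) - Φ k x) := rfl
    rw [e, La_sum]
    have h5 : ∀ z ∈ Bx b k, hk Φ k z * (Sm a p z (inc s z) - Sm a p z (L0 z)) *
        (La a φ (s.1 - z) - La a (Φ k) s.1) =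
        (if s.1 = z then hk Φ k z * (Sm a p z (inc s z) - Sm a p z (L0 z)) else 0) -
        La a (Φ k) s.1 * (hk Φ k z * Sm a p z (inc s z) - hk Φ k z * Sm a p z (L0 z)) := by
      intro z _
      rw [hs.lap]
      by_cases h : s.1 = z
      · rw [if_pos (sub_eq_zero.mpr h), if_pos h]
        ring
      · rw [if_neg (fun h' => h (sub_eq_zero.mp h')), if_neg h]
        ring
    rw [Finset.sum_congr rfl h5, Finset.sum_sub_distrib, Finset.sum_ite_eq, ← Finset.mul_sum,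
      Finset.sum_sub_distrib]
    by_cases hx : s.1 ∈ Bx b k
    · rw [if_pos hx]
      rfl
    · rw [if_neg hx, hs.hS k hk1 _ hx, zero_mul]
      rfl
  have h6 : Df (fun x => FF a p φ Φ b k L0 x (inc s)) s.1 =
      ∑ z ∈ Bx b k, hk Φ k z * DS a p L0 s z * (Df φ (s.1 - z) - Df (Φ k) s.1) := by
    have e : (fun x => FF a p φ Φ b k L0 x (inc s)) = fun x => ∑ z ∈ Bx b k,
        (hk Φ k z * (Sm a p z (inc s z) - Sm a p z (L0 z))) * (φ (x - z) - Φ k x) := rfl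
    rw [e, Df_sum]
    rfl
  rw [h1, h4, h6]
  ring

theorem BIL (hLTM : LTM_stmt) : BIL_stmt := by
  intro C b
  refine ⟨2 * C ^ 2, by positivity, ?_⟩
  intro a p V Tl Si φ Φ κ k1 hc hs k s hk1 hks N s0 hs0
  have hp0 := hc.p0
  have hp1 := hc.p1
  have hC1 : 1 ≤ C := hs.cone
  have hBL : Bx b k ⊆ Bx b (s + 1) := Bx_mono (by omega)
  have hBL' : Bx b (k + 1) ⊆ Bx b (s + 1) := Bx_mono (by omega)
  have hBB : Bx b k ⊆ Bx b (k + 1) := Bx_mono (by omega)
  generalize hΛ : Bx b (s + 1) = Λ at *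
  have h4 : (0 : ℝ) < 4 ^ k := by positivity
  -- sums of V
  have haa : (∑ z ∈ Bx b k, V z) / 4 ^ k ≤ aa V b k := by
    unfold aa
    exact div_le_div_of_nonneg_right
      (Finset.sum_le_sum_of_subset_of_nonneg hBB fun z _ _ => V_nonneg hc z) h4.le
  have haa0 : 0 ≤ aa V b k := by
    unfold aa
    exact div_nonneg (Finset.sum_nonneg fun z _ => V_nonneg hc z) h4.le
  -- LTM
  obtain ⟨L1, L2, -⟩ := hLTM a p V Tl Si hc Λ N s0
  have hcL : ∀ L : Site 2 → ℕ, ∑ z ∈ Λ, hk Φ k z * Sm a p z (L z) = cL a p Φ b k L := by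
    intro L
    unfold cL
    refine (Finset.sum_subset hBL fun z _ hz => ?_).symm
    rw [hs.hS k hk1 z hz, zero_mul]
  have e1 : Ex p Λ N (fun s => cL a p Φ b k s.2) s0 - cL a p Φ b k s0.2 =
      Rw p Λ N (fun s => hk Φ k s.1 * dS a p s) s0 := by
    have h := L1 (hk Φ k)
    simp only [hcL] at h
    rw [h]
    ring
  -- telescoping
  have e2 := tele p Λ N (fun s _ => step_FF (p := p) hs hk1 s0.2 s) s0
  have e3 : FF a p φ Φ b k s0.2 s0.1 s0.2 = 0 := by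
    unfold FF
    exact Finset.sum_eq_zero fun z _ => by rw [sub_self]; ring
  rw [Rw_add, Rw_sub, Rw_add, e3, zero_add] at e2
  -- the main identity
  have e4 : κ * k * Rw p Λ N (fun s => hk Φ k s.1 * dS a p s) s0 +
      Rw p Λ N (fun s => hk Φ k s.1 * dS a p s * (φ 0 - Φ k s.1)) s0 =
      Rw p Λ N (fun s => (hk Φ k s.1 * (κ * k - Φ k s.1)) * dS a p s) s0 := by
    rw [← Rw_smul, ← Rw_add]
    refine Rw_congr p Λ N (fun s _ => ?_) s0
    rw [hs.zero]
    ring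
  rw [e1]
  have e5 : κ * k * Rw p Λ N (fun s => hk Φ k s.1 * dS a p s) s0 +
      Rw p Λ N (fun s => La a (Φ k) s.1 * (cL a p Φ b k (inc s) - cL a p Φ b k s0.2)) s0 -
      Rw p Λ N (fun s => hk Φ k s.1 * DS a p s0.2 s s.1) s0 -
      Rw p Λ N (fun s => dS a p s * ∑ z ∈ Bx b k, hk Φ k z * DS a p s0.2 s z *
        (Df φ (s.1 - z) - Df (Φ k) s.1)) s0 =
      Rw p Λ N (fun s => (hk Φ k s.1 * (κ * k - Φ k s.1)) * dS a p s) s0 -
        Ex p Λ N (fun s => FF a p φ Φ b k s0.2 s.1 s.2) s0 := by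
    rw [e2, ← e4]
    ring
  rw [e5]
  -- the first error
  have b1 : |Rw p Λ N (fun s => (hk Φ k s.1 * (κ * k - Φ k s.1)) * dS a p s) s0| ≤
      C ^ 2 * aa V b k := by
    refine (Rw_abs hp0 hp1 Λ N _ s0).trans ?_
    simp only [abs_mul (hk Φ k _ * _)]
    refine (L2 (fun x => hk Φ k x * (κ * k - Φ k x))).trans ?_
    have h5 : ∑ z ∈ Λ, |hk Φ k z * (κ * k - Φ k z)| * V z =
        ∑ z ∈ Bx b k, |hk Φ k z * (κ * k - Φ k z)| * V z := by
      refine (Finset.sum_subset hBL fun z _ hz => ?_).symm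
      rw [hs.hS k hk1 z hz, zero_mul, abs_zero, zero_mul]
    rw [h5]
    have h6 : ∀ z ∈ Bx b k, |hk Φ k z * (κ * k - Φ k z)| * V z ≤ C ^ 2 * (V z / 4 ^ k) := by
      intro z hz
      have h7 := hs.h1 k hk1 z
      have h8 := hs.near k hk1 z hz
      rw [abs_sub_comm] at h8
      have h9 : |hk Φ k z * (κ * k - Φ k z)| ≤ C / 4 ^ k * C := by
        rw [abs_mul]
        exact mul_le_mul h7 h8 (abs_nonneg _) (by positivity)
      calc |hk Φ k z * (κ * k - Φ k z)| * V z ≤ C / 4 ^ k * C * V z :=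
            mul_le_mul_of_nonneg_right h9 (V_nonneg hc z)
        _ = C ^ 2 * (V z / 4 ^ k) := by ring
    refine (Finset.sum_le_sum h6).trans ?_
    rw [← Finset.mul_sum, ← Finset.sum_div]
    exact mul_le_mul_of_nonneg_left haa (by positivity)
  -- the second error
  have b2 : |Ex p Λ N (fun s => FF a p φ Φ b k s0.2 s.1 s.2) s0| ≤
      C ^ 2 * aa V b k + C ^ 2 * (k + 1) * aa V b k * Ex p Λ N (one Λ) s0 := by
    refine (Ex_abs hp0 hp1 Λ N _ s0).trans ?_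
    have h5 : ∀ s : St, |FF a p φ Φ b k s0.2 s.1 s.2| ≤
        C ^ 2 * aa V b k + C ^ 2 * (k + 1) * aa V b k * one Λ s := by
      intro s
      have hψ : ∀ z ∈ Bx b k, |φ (s.1 - z) - Φ k s.1| ≤ C + C * (k + 1) * one Λ s := by
        intro z hz
        unfold one
        by_cases hx : s.1 ∈ Λ
        · rw [if_pos hx]
          have := hs.psiA k hk1 z hz s.1
          linarith
        · rw [if_neg hx]
          have := hs.psiO k hk1 z hz s.1 (fun h => hx (hBL' h))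
          linarith
      have hone : 0 ≤ one Λ s := by unfold one; split_ifs <;> norm_num
      have hk0 : (0 : ℝ) ≤ k := Nat.cast_nonneg k
      have hpos : 0 ≤ C + C * (k + 1) * one Λ s := by positivity
      unfold FF
      refine (Finset.abs_sum_le_sum_abs _ _).trans ?_
      have h6 : ∀ z ∈ Bx b k, |hk Φ k z * (Sm a p z (s.2 z) - Sm a p z (s0.2 z)) *
          (φ (s.1 - z) - Φ k s.1)| ≤ (C * (C + C * (k + 1) * one Λ s)) * (V z / 4 ^ k) := by
        intro z hz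
        rw [abs_mul, abs_mul]
        have h7 := hs.h1 k hk1 z
        have h8 := Sm_diff hc z (s.2 z) (s0.2 z)
        have h9 := hψ z hz
        calc |hk Φ k z| * |Sm a p z (s.2 z) - Sm a p z (s0.2 z)| * |φ (s.1 - z) - Φ k s.1|
            ≤ (C / 4 ^ k * V z) * (C + C * (k + 1) * one Λ s) :=
              mul_le_mul (mul_le_mul h7 h8 (abs_nonneg _) (by positivity)) h9 (abs_nonneg _)
                (mul_nonneg (by positivity) (V_nonneg hc z))
          _ = (C * (C + C * (k + 1) * one Λ s)) * (V z / 4 ^ k) := by ring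
      refine (Finset.sum_le_sum h6).trans ?_
      rw [← Finset.mul_sum, ← Finset.sum_div]
      refine (mul_le_mul_of_nonneg_left haa (by positivity)).trans (le_of_eq ?_)
      ring
    refine (Ex_mono hp0 hp1 Λ N h5 s0).trans (le_of_eq ?_)
    rw [Ex_add, Ex_const, Ex_smul]
  calc |Rw p Λ N (fun s => (hk Φ k s.1 * (κ * k - Φ k s.1)) * dS a p s) s0 -
        Ex p Λ N (fun s => FF a p φ Φ b k s0.2 s.1 s.2) s0|
      ≤ |Rw p Λ N (fun s => (hk Φ k s.1 * (κ * k - Φ k s.1)) * dS a p s) s0| +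
        |Ex p Λ N (fun s => FF a p φ Φ b k s0.2 s.1 s.2) s0| := abs_sub _ _
    _ ≤ C ^ 2 * aa V b k + (C ^ 2 * aa V b k +
          C ^ 2 * (k + 1) * aa V b k * Ex p Λ N (one Λ) s0) := add_le_add b1 b2
    _ ≤ _ := by
        have hE : 0 ≤ Ex p Λ N (one Λ) s0 := Ex_nonneg hp0 hp1 Λ N
          (fun s => by unfold one; split_ifs <;> norm_num) s0
        have h5 : 0 ≤ C ^ 2 * (k + 1) * aa V b k * Ex p Λ N (one Λ) s0 := by positivity
        nlinarith

end Pool.Agent.Helper56.EXC
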