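import Pool.Agent.Helper99.EXC.GoalsS

set_option autoImplicit false

open Finset
open Pool.Agent.Helper99.ERW Pool.Agent.Helper99.EXC

namespace Pool.Agent.Helper56.EXC

theorem abs_vec_real (e : Dir 2) (l : Fin 2) : |((vec e l : ℤ) : ℝ)| ≤ 1 := by
  exact_mod_cast abs_vec_le e l

theorem nm_nonneg (x : Site 2) : 0 ≤ nm x := (abs_nonneg _).trans (le_max_left _ _)

theorem nm_add_le (x : Site 2) (e : Dir 2) : nm (x + vec e) ≤ nm x + 1 := by
  have h : ∀ l : Fin 2, |(((x + vec e) l : ℤ) : ℝ)| ≤ |(x l : ℝ)| + 1 := by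
    intro l
    rw [Pi.add_apply]
    push_cast
    exact (abs_add_le _ _).trans (by have := abs_vec_real e l; linarith)
  unfold nm
  refine max_le ((h 0).trans ?_) ((h 1).trans ?_)
  · linarith [le_max_left |(x 0 : ℝ)| |(x 1 : ℝ)|]
  · linarith [le_max_right |(x 0 : ℝ)| |(x 1 : ℝ)|]

theorem nm_le_add (x : Site 2) (e : Dir 2) : nm x ≤ nm (x + vec e) + 1 := by
  have h : ∀ l : Fin 2, |(x l : ℝ)| ≤ |(((x + vec e) l : ℤ) : ℝ)| + 1 := by
    intro l
    have h1 : (x l : ℝ) = (((x + vec e) l : ℤ) : ℝ) - ((vec e l : ℤ) : ℝ) := by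
      rw [Pi.add_apply]; push_cast; ring
    calc |(x l : ℝ)| = |(((x + vec e) l : ℤ) : ℝ) - ((vec e l : ℤ) : ℝ)| := by rw [← h1]
      _ ≤ |(((x + vec e) l : ℤ) : ℝ)| + |((vec e l : ℤ) : ℝ)| := abs_sub _ _
      _ ≤ _ := by have := abs_vec_real e l; linarith
  unfold nm
  refine max_le ((h 0).trans ?_) ((h 1).trans ?_)
  · linarith [le_max_left |(((x + vec e) 0 : ℤ) : ℝ)| |(((x + vec e) 1 : ℤ) : ℝ)|]
  · linarith [le_max_right |(((x + vec e) 0 : ℤ) : ℝ)| |(((x + vec e) 1 : ℤ) : ℝ)|]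

theorem lt_nm_of_notMem {b k : ℕ} {x : Site 2} (h : x ∉ Bx b k) : (b : ℝ) * 2 ^ k < nm x := by
  by_contra hcon
  push Not at hcon
  apply h
  unfold Bx
  rw [mem_box]
  unfold nm at hcon
  have h0 := (le_max_left |(x 0 : ℝ)| |(x 1 : ℝ)|).trans hcon
  have h1 := (le_max_right |(x 0 : ℝ)| |(x 1 : ℝ)|).trans hcon
  intro l
  fin_cases l
  · have : |(x 0 : ℝ)| ≤ ((b * 2 ^ k : ℕ) : ℝ) := by push_cast; exact h0
    exact_mod_cast this
  · have : |(x 1 : ℝ)| ≤ ((b * 2 ^ k : ℕ) : ℝ) := by push_cast; exact h1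
    exact_mod_cast this

theorem vec_cancel (x : Site 2) (l : Fin 2) : x + vec (l, true) + vec (l, false) = x := by
  funext i
  simp only [Pi.add_apply, vec]
  by_cases h : i = l
  · subst h
    simp
  · rw [Pi.single_eq_of_ne h, Pi.single_eq_of_ne h]
    simp

theorem second_bound (hF : FFP_stmt) {a : ℝ} {φ : Site 2 → ℝ} {κ C0 : ℝ} (hK : Ker a φ κ C0)
    (k : ℕ) (l : Fin 2) (x : Site 2) {r : ℝ} (hr : 1 ≤ r) (hx : r ≤ 1 + nm x) :
    secondDiff (Phi κ φ k) l x ≤ (C0 + 2 * C0 ^ 2 + 2 * C0 ^ 3) / r ^ 2 := by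
  obtain ⟨-, -, -, -, -, hsg, hss, -, -, -, -, hT⟩ := hF
  have hC1 := hK.cone
  have hr0 : 0 < r := by linarith
  set A := φ x - κ * k with hA
  set p := φ (x + vec (l, true)) - φ x with hp
  set q := φ (x + vec (l, false)) - φ x with hq
  have e : secondDiff (Phi κ φ k) l x = FF (A + p) + FF (A + q) - 2 * FF A := by
    unfold secondDiff Phi
    rw [show A + p = φ (x + vec (l, true)) - κ * k by rw [hA, hp]; ring,
      show A + q = φ (x + vec (l, false)) - κ * k by rw [hA, hq]; ring, hA]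
    ring
  rw [e]
  have tp := hT A p
  have tq := hT A q
  rw [abs_le] at tp tq
  have hpb : |p| ≤ C0 / r := (hK.d1 x (l, true)).trans (div_le_div_of_nonneg_left (by linarith) hr0 hx)
  have hqb : |q| ≤ C0 / r := (hK.d1 x (l, false)).trans (div_le_div_of_nonneg_left (by linarith) hr0 hx)
  have hpq : |p + q| ≤ C0 / r ^ 2 := by
    have h1 := hK.d2 x (l, true) (l, false)
    rw [vec_cancel] at h1
    have h2 : φ x - φ (x + vec (l, true)) - φ (x + vec (l, false)) + φ x = -(p + q) := by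
      rw [hp, hq]; ring
    rw [h2, abs_neg] at h1
    refine h1.trans (div_le_div_of_nonneg_left (by linarith) (by positivity) ?_)
    exact pow_le_pow_left₀ hr0.le hx 2
  have s1 : sg A * (p + q) ≤ C0 / r ^ 2 := by
    have := hsg A
    calc sg A * (p + q) ≤ |sg A * (p + q)| := le_abs_self _
      _ = sg A * |p + q| := by rw [abs_mul, abs_of_nonneg this.1]
      _ ≤ 1 * |p + q| := mul_le_mul_of_nonneg_right this.2 (abs_nonneg _)
      _ ≤ _ := by rw [one_mul]; exact hpq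
  have hp2 : p ^ 2 ≤ (C0 / r) ^ 2 := by
    rw [← sq_abs]; exact pow_le_pow_left₀ (abs_nonneg _) hpb 2
  have hq2 : q ^ 2 ≤ (C0 / r) ^ 2 := by
    rw [← sq_abs]; exact pow_le_pow_left₀ (abs_nonneg _) hqb 2
  have hp3 : |p| ^ 3 ≤ (C0 / r) ^ 3 := pow_le_pow_left₀ (abs_nonneg _) hpb 3
  have hq3 : |q| ^ 3 ≤ (C0 / r) ^ 3 := pow_le_pow_left₀ (abs_nonneg _) hqb 3
  have s2 : ss A * (p ^ 2 + q ^ 2) / 2 ≤ 2 * (C0 / r) ^ 2 := by
    have h1 := hss A
    have h2 : ss A * (p ^ 2 + q ^ 2) ≤ 2 * (p ^ 2 + q ^ 2) :=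
      mul_le_mul_of_nonneg_right h1.2 (by positivity)
    linarith
  have s3 : (C0 / r) ^ 3 ≤ C0 ^ 3 / r ^ 2 := by
    rw [div_pow]
    refine div_le_div_of_nonneg_left (by positivity) (by positivity) ?_
    exact pow_le_pow_right₀ hr (by norm_num)
  have s4 : (C0 + 2 * C0 ^ 2 + 2 * C0 ^ 3) / r ^ 2 =
      C0 / r ^ 2 + 2 * (C0 / r) ^ 2 + 2 * (C0 ^ 3 / r ^ 2) := by
    rw [div_pow]; ring
  rw [s4]
  have h5 : ss A * (p ^ 2 + q ^ 2) / 2 = ss A * p ^ 2 / 2 + ss A * q ^ 2 / 2 := by ring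
  have h6 : sg A * (p + q) = sg A * p + sg A * q := by ring
  linarith [tp.2, tq.2]

theorem SB (hFFP : FFP_stmt) : SB_stmt := by
  intro a φ κ C0 ha0 ha1 hK
  have hF := hFFP
  obtain ⟨-, -, hF1, hF0, -, hsg, -, htan, -, -, -, -⟩ := hFFP
  have hκ := hK.kpos
  have hC1 := hK.cone
  refine ⟨max 1 ⌈(2 : ℝ) ^ ((C0 + 1) / κ)⌉₊, fun b hb => ?_⟩
  have hb1 : (1 : ℝ) ≤ b := by exact_mod_cast (le_max_left _ _).trans hb
  have hb2 : (2 : ℝ) ^ ((C0 + 1) / κ) ≤ b :=
    (Nat.le_ceil _).trans (by exact_mod_cast (le_max_right _ _).trans hb)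
  set c : ℝ := (2 : ℝ) ^ (-C0 / κ) with hc
  have hc0 : 0 < c := Real.rpow_pos_of_pos (by norm_num) _
  obtain ⟨k1, hk1⟩ := pow_unbounded_of_one_lt (4 / c) (by norm_num : (1 : ℝ) < 2)
  refine ⟨(C0 + 2 * C0 ^ 2 + 2 * C0 ^ 3) * 4 / c ^ 2, k1, fun k hk x => ?_⟩
  have h2k : (2 : ℝ) ^ k1 ≤ 2 ^ k := pow_le_pow_right₀ (by norm_num) hk
  have h2k0 : (0 : ℝ) < 2 ^ k := by positivity
  have hck : 4 < c * 2 ^ k := by
    have := (div_lt_iff₀ hc0).mp (hk1.trans_le h2k)
    linarith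
  -- large values off the box
  have hbig : ∀ y : Site 2, (b : ℝ) * 2 ^ k < nm y + 1 → κ * k + 1 ≤ φ y := by
    intro y hy
    have h1 := hK.log y
    rw [abs_le] at h1
    have h2 : Real.logb 2 ((b : ℝ) * 2 ^ k) ≤ Real.logb 2 (1 + nm y) :=
      Real.logb_le_logb_of_le (by norm_num) (by positivity) (by linarith)
    rw [Real.logb_mul (by positivity) (by positivity), Real.logb_pow,
      Real.logb_self_eq_one (by norm_num), mul_one] at h2
    have h3 : (C0 + 1) / κ ≤ Real.logb 2 b :=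
      (Real.le_logb_iff_rpow_le (by norm_num) (by linarith)).mpr hb2
    have h4 : κ * ((C0 + 1) / κ + k) ≤ κ * Real.logb 2 (1 + nm y) :=
      mul_le_mul_of_nonneg_left (by linarith) hκ.le
    have h5 : κ * ((C0 + 1) / κ + k) = C0 + 1 + κ * k := by field_simp
    linarith [h1.1]
  -- small values near the origin
  have hsmall : ∀ y : Site 2, κ * k < φ y → c * 2 ^ k < 1 + nm y := by
    intro y hy
    by_contra hcon
    push Not at hcon
    have h1 := hK.log y
    rw [abs_le] at h1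
    have hn := nm_nonneg y
    have h2 : Real.logb 2 (1 + nm y) ≤ Real.logb 2 (c * 2 ^ k) :=
      Real.logb_le_logb_of_le (by norm_num) (by linarith) hcon
    rw [Real.logb_mul (by positivity) (by positivity), Real.logb_pow,
      Real.logb_self_eq_one (by norm_num), mul_one, hc,
      Real.logb_rpow (by norm_num) (by norm_num)] at h2
    have h4 : κ * Real.logb 2 (1 + nm y) ≤ κ * (-C0 / κ + k) :=
      mul_le_mul_of_nonneg_left h2 hκ.le
    have h5 : κ * (-C0 / κ + k) = -C0 + κ * k := by field_simp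
    linarith [h1.2]
  -- nonnegativity
  have hmu0 : 0 ≤ La a (Phi κ φ k) x := by
    have hL : 0 ≤ La a φ x := by rw [hK.lap]; split_ifs <;> norm_num
    have hs := hsg (φ x - κ * k)
    have t : ∀ e : Dir 2, FF (φ x - κ * k) + sg (φ x - κ * k) * (φ (x + vec e) - φ x) ≤
        FF (φ (x + vec e) - κ * k) := by
      intro e
      have := htan (φ x - κ * k) (φ (x + vec e) - κ * k)
      rwa [show φ (x + vec e) - κ * k - (φ x - κ * k) = φ (x + vec e) - φ x by ring] at this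
    have t1 := t (0, true)
    have t2 := t (0, false)
    have t3 := t (1, true)
    have t4 := t (1, false)
    have hprod : 0 ≤ sg (φ x - κ * k) * La a φ x := mul_nonneg hs.1 hL
    refine hprod.trans ?_
    have m1 := mul_le_mul_of_nonneg_left (add_le_add t1 t2) ha0.le
    have m2 := mul_le_mul_of_nonneg_left (add_le_add t3 t4) (by linarith : 0 ≤ 1 - a)
    unfold La secondDiff Phi
    nlinarith
  have hmuS : x ∉ Bx b k → La a (Phi κ φ k) x = 0 := by
    intro hx
    have hn := lt_nm_of_notMem hx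
    have h0 : κ * k + 1 ≤ φ x := hbig x (by linarith)
    have h1 : ∀ e : Dir 2, κ * k + 1 ≤ φ (x + vec e) := fun e =>
      hbig _ (by have := nm_le_add x e; linarith)
    have hx0 : x ≠ 0 := by
      rintro rfl
      have : nm (0 : Site 2) = 0 := by simp [nm]
      rw [this] at hn
      have : (0 : ℝ) < (b : ℝ) * 2 ^ k := by positivity
      linarith
    have hP : ∀ y, κ * k + 1 ≤ φ y → Phi κ φ k y = φ y := by
      intro y hy
      unfold Phi
      rw [hF1 _ (by linarith)]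
      ring
    have h2 : La a (Phi κ φ k) x = La a φ x := by
      unfold La secondDiff
      rw [hP x h0, hP _ (h1 (0, true)), hP _ (h1 (0, false)), hP _ (h1 (1, true)),
        hP _ (h1 (1, false))]
    rw [h2, hK.lap, if_neg hx0]
  have hCpos : 0 ≤ (C0 + 2 * C0 ^ 2 + 2 * C0 ^ 3) * 4 / c ^ 2 / 4 ^ k := by positivity
  refine ⟨hmu0, ?_, hmuS⟩
  by_cases hall : φ x ≤ κ * k ∧ ∀ e : Dir 2, φ (x + vec e) ≤ κ * k
  · have hP : ∀ y, φ y ≤ κ * k → Phi κ φ k y = κ * k + 1 / 2 := by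
      intro y hy
      unfold Phi
      rw [hF0 _ (by linarith)]
    have h2 : La a (Phi κ φ k) x = 0 := by
      unfold La secondDiff
      rw [hP x hall.1, hP _ (hall.2 (0, true)), hP _ (hall.2 (0, false)),
        hP _ (hall.2 (1, true)), hP _ (hall.2 (1, false))]
      ring
    rw [h2]
    exact hCpos
  · -- the ring
    have hnm : c * 2 ^ k < 2 + nm x := by
      by_cases h0 : φ x ≤ κ * k
      · have : ∃ e : Dir 2, κ * k < φ (x + vec e) := by
          by_contra hcon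
          push Not at hcon
          exact hall ⟨h0, hcon⟩
        obtain ⟨e, he⟩ := this
        have h1 := hsmall _ he
        have h2 := nm_add_le x e
        linarith
      · push Not at h0
        have := hsmall x h0
        linarith
    set r : ℝ := c / 2 * 2 ^ k with hr
    have hr1 : 1 ≤ r := by rw [hr]; linarith
    have hrx : r ≤ 1 + nm x := by rw [hr]; linarith
    have b0 := second_bound hF hK k 0 x hr1 hrx
    have b1 := second_bound hF hK k 1 x hr1 hrx
    have e1 : (C0 + 2 * C0 ^ 2 + 2 * C0 ^ 3) / r ^ 2 =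
        (C0 + 2 * C0 ^ 2 + 2 * C0 ^ 3) * 4 / c ^ 2 / 4 ^ k := by
      rw [hr, mul_pow, div_pow, ← pow_mul, mul_comm k 2, pow_mul]
      norm_num
      field_simp
    rw [e1] at b0 b1
    have m1 := mul_le_mul_of_nonneg_left b0 ha0.le
    have m2 := mul_le_mul_of_nonneg_left b1 (by linarith : 0 ≤ 1 - a)
    unfold La
    linarith

end Pool.Agent.Helper56.EXC
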