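import Pool.Agent.Helper99.EXC.GoalsE

set_option autoImplicit false

open Finset MeasureTheory ProbabilityTheory Filter
open Pool.Agent.Helper99.ERW Pool.Agent.Helper99.EXC

namespace Pool.Agent.Helper56.EXC

theorem weighted_cs {ι : Type*} (B : Finset ι) (w f : ι → ℝ) :
    (∑ z ∈ B, w z * f z) ^ 2 ≤ (∑ z ∈ B, |w z|) * ∑ z ∈ B, |w z| * f z ^ 2 := by
  have h1 : |∑ z ∈ B, w z * f z| ≤ ∑ z ∈ B, Real.sqrt |w z| * (Real.sqrt |w z| * |f z|) := by
    refine (Finset.abs_sum_le_sum_abs _ _).trans (le_of_eq ?_)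
    refine Finset.sum_congr rfl fun z _ => ?_
    rw [← mul_assoc, Real.mul_self_sqrt (abs_nonneg _), abs_mul]
  have h2 : (∑ z ∈ B, w z * f z) ^ 2 ≤
      (∑ z ∈ B, Real.sqrt |w z| * (Real.sqrt |w z| * |f z|)) ^ 2 := by
    rw [← sq_abs]
    exact pow_le_pow_left₀ (abs_nonneg _) h1 2
  refine h2.trans ((Finset.sum_mul_sq_le_sq_mul_sq _ _ _).trans (le_of_eq ?_))
  congr 1
  · refine Finset.sum_congr rfl fun z _ => ?_
    rw [Real.sq_sqrt (abs_nonneg _)]
  · refine Finset.sum_congr rfl fun z _ => ?_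
    rw [mul_pow, Real.sq_sqrt (abs_nonneg _), sq_abs]

theorem STA : STA_stmt := by
  intro P _ hSE f hf hL
  have hz : ∀ z : Site 2, Measurable (fun ω : Env 2 => ω z) := fun z => measurable_pi_apply z
  have hm : ∀ z, MemLp (fun ω : Env 2 => f (ω z)) 2 P := by
    intro z
    have h0 : MemLp f 2 (P.map (fun ω : Env 2 => ω 0)) :=
      (memLp_map_measure_iff hf.aestronglyMeasurable (hz 0).aemeasurable).mpr hL
    rw [← hSE.map_eq z] at h0
    exact (memLp_map_measure_iff hf.aestronglyMeasurable (hz z).aemeasurable).mp h0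
  have hi : ∀ (g : Stack 2 → ℝ), Measurable g → ∀ z,
      ∫ ω, g (ω z) ∂P = ∫ ω, g (ω 0) ∂P := by
    intro g hg z
    have h1 := integral_map (hz z).aemeasurable (hg.aestronglyMeasurable
      (μ := P.map (fun ω : Env 2 => ω z)))
    have h2 := integral_map (hz 0).aemeasurable (hg.aestronglyMeasurable
      (μ := P.map (fun ω : Env 2 => ω 0)))
    rw [← h1, ← h2, hSE.map_eq z]
  have hsq : ∀ z, ∫ ω, f (ω z) ^ 2 ∂P = ∫ ω, f (ω 0) ^ 2 ∂P :=
    fun z => hi (fun σ => f σ ^ 2) (hf.pow_const 2) z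
  refine ⟨hm, hsq, hi f hf, fun B w => ?_⟩
  have hint : ∀ z, Integrable (fun ω : Env 2 => |w z| * f (ω z) ^ 2) P :=
    fun z => (hm z).integrable_sq.const_mul _
  have hint2 : Integrable (fun ω : Env 2 => (∑ z ∈ B, |w z|) * ∑ z ∈ B, |w z| * f (ω z) ^ 2) P :=
    (integrable_finsetSum B fun z _ => hint z).const_mul _
  calc ∫ ω, (∑ z ∈ B, w z * f (ω z)) ^ 2 ∂P
      ≤ ∫ ω, (∑ z ∈ B, |w z|) * ∑ z ∈ B, |w z| * f (ω z) ^ 2 ∂P :=
        integral_mono_of_nonneg (Eventually.of_forall fun ω => sq_nonneg _) hint2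
          (Eventually.of_forall fun ω => weighted_cs B w fun z => f (ω z))
    _ = (∑ z ∈ B, |w z|) * ∑ z ∈ B, |w z| * ∫ ω, f (ω z) ^ 2 ∂P := by
        rw [integral_const_mul, integral_finsetSum B fun z _ => hint z]
        congr 1
        refine Finset.sum_congr rfl fun z _ => ?_
        rw [integral_const_mul]
    _ = (∑ z ∈ B, |w z|) ^ 2 * ∫ ω, f (ω 0) ^ 2 ∂P := by
        simp only [hsq]
        rw [← Finset.sum_mul]
        ring

end Pool.Agent.Helper56.EXC
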